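import Mathlib
import Pool.Agent.Helper131.FreeDef
import Pool.Agent.Helper131.ExtC
import Pool.Agent.Helper131.TwoC
import Pool.Agent.Helper131.TwoBC

set_option autoImplicit false

namespace Pool.Agent.Results.MP_efc42c_co.AllThree

open Pool.Agent.Helper131 (Free)

/-- Let the alphabet have `k` letters and let `α > 2` be rational; if `k = 2` assume `α > 7/3`.
Then right extendability, left extendability and two-sided extendability are decidable. -/
theorem result (k : ℕ) (α : ℚ) (hα : 2 < α) (hk : k = 2 → 7 / 3 < α) :
    (ComputablePred fun u : List (Fin k) => {x : List (Fin k) | Free α (u ++ x)}.Infinite) ∧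
    (ComputablePred fun u : List (Fin k) => {x : List (Fin k) | Free α (x ++ u)}.Infinite) ∧
    (ComputablePred fun u : List (Fin k) =>
      {z : List (Fin k) | (∃ v y : List (Fin k), z = v ++ u ++ y ∧ v.length = y.length) ∧
        Free α z}.Infinite) := by
  by_cases h2 : k = 2
  · subst h2
    have h73 := hk rfl
    refine ⟨?_, ?_, Pool.Agent.Helper131.TwoBC.computable_TE h73⟩
    · rcases le_or_gt α 3 with h3 | h3
      · exact Pool.Agent.Helper131.ExtC.computable_Ext (by linarith)
          Pool.Agent.Helper131.Bin.pr_hub (Pool.Agent.Helper131.Bin.good_bin h73 h3)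
      · exact (Pool.Agent.Helper131.ExtC.computable_all hα.le (Or.inr (Or.inr h3))).1
    · rcases le_or_gt α 3 with h3 | h3
      · exact Pool.Agent.Helper131.ExtC.computable_LExt (Pool.Agent.Helper131.ExtC.computable_Ext
          (by linarith) Pool.Agent.Helper131.Bin.pr_hub (Pool.Agent.Helper131.Bin.good_bin h73 h3))
      · exact (Pool.Agent.Helper131.ExtC.computable_all hα.le (Or.inr (Or.inr h3))).2
  · exact ⟨(Pool.Agent.Helper131.ExtC.computable_all hα.le (Or.inl h2)).1,
      (Pool.Agent.Helper131.ExtC.computable_all hα.le (Or.inl h2)).2,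
      Pool.Agent.Helper131.TwoC.computable_TE hα h2⟩

end Pool.Agent.Results.MP_efc42c_co.AllThree
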